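import Pool.Agent.U72.CMO.Bas
import Pool.Agent.W280.MO.ES

set_option autoImplicit false

/-!
# Package ES (completely multiplicative): the Euler product sum over all rough numbers is small
-/

namespace Pool.Agent.U876.CMO

open Finset Filter Topology
open scoped Classical
open Pool.Agent.W76.MO Pool.Agent.U72.CMO

/-- `cmv v` as a homomorphism, with the value `0` at `0`. -/
noncomputable def hom (v : ℕ → ℝ) : ℕ →* ℝ where
  toFun n := if n = 0 then 0 else cmv v n
  map_one' := by simp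
  map_mul' m n := by
    by_cases hm : m = 0
    · simp [hm]
    by_cases hn : n = 0
    · simp [hn]
    simp [hm, hn, cmv_mul v hm hn]

theorem hom_apply (v : ℕ → ℝ) {n : ℕ} (hn : n ≠ 0) : hom v n = cmv v n := by
  show (if n = 0 then 0 else cmv v n) = _
  rw [if_neg hn]

/-- Sums of a completely multiplicative function over numbers with prime factors in a finite set. -/
theorem euler (P : Finset ℕ) (a : ℕ → ℝ) (ha0 : ∀ p, 0 ≤ a p) (ha : ∀ p ∈ P, a p ≤ 1 / 2)
    (F : Finset ℕ) (hF : ∀ t ∈ F, 2 ≤ t ∧ ∀ p : ℕ, p.Prime → p ∣ t → p ∈ P) :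
    ∑ t ∈ F, cmv a t ≤ Real.exp (2 * ∑ p ∈ P, a p) - 1 := by
  set v : ℕ → ℝ := fun p => if p ∈ P then a p else 0 with hv
  have hv0 : ∀ p, 0 ≤ v p := fun p => by
    simp only [hv]
    split_ifs
    · exact ha0 p
    · exact le_rfl
  have hv1 : ∀ p, v p ≤ 1 / 2 := fun p => by
    simp only [hv]
    split_ifs with h
    · exact ha p h
    · norm_num
  have hhom0 : ∀ n, 0 ≤ hom v n := fun n => by
    by_cases hn : n = 0
    · show 0 ≤ (if n = 0 then 0 else cmv v n)
      rw [if_pos hn]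
    · rw [hom_apply v hn]
      exact cmv_nonneg v n fun p _ _ => hv0 p
  have hlt : ∀ {p : ℕ}, p.Prime → ‖hom v p‖ < 1 := by
    intro p hp
    rw [Real.norm_eq_abs, abs_of_nonneg (hhom0 p), hom_apply v hp.ne_zero, cmv_prime v hp]
    have := hv1 p
    linarith
  have h := (EulerProduct.summable_and_hasSum_factoredNumbers_prod_filter_prime_geometric
    (f := hom v) hlt P).2
  have h' : HasSum ((Nat.factoredNumbers P).indicator (fun n => hom v n))
      (∏ p ∈ P with p.Prime, (1 - hom v p)⁻¹) := by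
    rw [← hasSum_subtype_iff_indicator]
    exact h
  have h2 := sum_le_hasSum (insert 1 F) (fun i _ => Set.indicator_nonneg (fun n _ => hhom0 n) i) h'
  have h1F : (1 : ℕ) ∉ F := fun h1 => by have := (hF 1 h1).1; omega
  rw [Finset.sum_insert h1F] at h2
  have h3 : (Nat.factoredNumbers P).indicator (fun n => hom v n) 1 = 1 := by
    rw [Set.indicator_of_mem]
    · exact map_one _
    · rw [Nat.mem_factoredNumbers']
      intro p hp hp1
      exact absurd (Nat.dvd_one.1 hp1) hp.ne_one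
  have h4 : ∑ t ∈ F, (Nat.factoredNumbers P).indicator (fun n => hom v n) t = ∑ t ∈ F, cmv a t := by
    refine Finset.sum_congr rfl fun t ht => ?_
    obtain ⟨ht2, htP⟩ := hF t ht
    rw [Set.indicator_of_mem (Nat.mem_factoredNumbers'.2 htP), hom_apply v (by omega)]
    refine cmv_congr _ _ _ fun p hp hpt => ?_
    simp only [hv]
    rw [if_pos (htP p hp hpt)]
  rw [h3, h4] at h2
  have h5 : ∏ p ∈ P with p.Prime, (1 - hom v p)⁻¹ ≤ Real.exp (2 * ∑ p ∈ P, a p) := by
    have h6 : ∏ p ∈ P with p.Prime, (1 - hom v p)⁻¹ ≤ ∏ p ∈ P with p.Prime, Real.exp (2 * a p) := by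
      refine Finset.prod_le_prod (fun p hp => ?_) (fun p hp => ?_)
      · have hpp := (mem_filter.1 hp).2
        rw [hom_apply v hpp.ne_zero, cmv_prime v hpp, inv_nonneg]
        have := hv1 p
        linarith
      · have hpp := (mem_filter.1 hp).2
        have hpP := (mem_filter.1 hp).1
        have hva : v p = a p := by simp only [hv]; rw [if_pos hpP]
        rw [hom_apply v hpp.ne_zero, cmv_prime v hpp, hva]
        have h7 := ha p hpP
        have h8 := ha0 p
        have h9 : (1 - a p)⁻¹ ≤ 2 * a p + 1 := by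
          rw [inv_le_iff_one_le_mul₀ (by linarith)]
          nlinarith
        exact h9.trans (Real.add_one_le_exp _)
    refine h6.trans ?_
    rw [Finset.mul_sum, ← Real.exp_sum]
    refine Real.exp_le_exp.2 (Finset.sum_le_sum_of_subset_of_nonneg (filter_subset _ _)
      fun p _ _ => ?_)
    have := ha0 p
    positivity
  linarith

theorem t_ES : T_ESC := by
  intro E hGB η hη
  obtain ⟨J, hJ1, hJ⟩ := hGB
  set ε := min 1 η / 8 with hε
  have hm : 0 < min 1 η := lt_min one_pos hη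
  have hε0 : 0 < ε := by positivity
  obtain ⟨R₀, hR₀⟩ := Pool.Agent.W280.MO.tail_small E.hδ hε0
  refine ⟨R₀, fun R hR => ?_⟩
  obtain ⟨J', hJ'⟩ := exists_nat_gt (4 / ε)
  refine ⟨max J J', fun j hj M => ?_⟩
  obtain ⟨-, hgu, hgh, -, -, -, -, hsh, hsu⟩ := hJ j ((le_max_left _ _).trans hj)
  have hj0 : (0 : ℝ) < j := by
    have : 1 ≤ j := hJ1.trans ((le_max_left _ _).trans hj)
    exact_mod_cast this
  have hjε : 4 / (j : ℝ) ≤ ε := by
    have h1 : (J' : ℝ) ≤ j := by exact_mod_cast (le_max_right _ _).trans hj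
    have h2 : 4 / ε < j := hJ'.trans_le h1
    rw [div_lt_iff₀ hε0] at h2
    rw [div_le_iff₀ hj0]
    linarith
  set a : ℕ → ℝ := fun p => (1 + 2 * (p * E.g j p)) * (p : ℝ) ^ (-1 - E.δ / 2) with ha
  have hg0 : ∀ p, 0 ≤ E.g j p := fun p => add_nonneg (hgu p) (hgh p)
  have ha0 : ∀ p, 0 ≤ a p := fun p =>
    mul_nonneg (by have := hg0 p; positivity) (Real.rpow_nonneg (by positivity) _)
  set P : Finset ℕ := (Icc R M).filter Nat.Prime with hP
  -- the sum of the `a p`
  have hsum : ∑ p ∈ P, a p ≤ 2 * ε := by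
    have h1 : ∑ p ∈ P, (p : ℝ) ^ (-1 - E.δ / 2) ≤ ε := hR₀ P (fun p hp => by
      rw [hP, mem_filter, mem_Icc] at hp
      exact hR.trans hp.1.1)
    have h2 : ∀ p ∈ P, a p ≤ (p : ℝ) ^ (-1 - E.δ / 2) + 2 * (E.gu j p * (p : ℝ) ^ (-E.δ / 2)) +
        2 * ((p * E.gh j p) * (p : ℝ) ^ (-1 + E.τ / 4)) := by
      intro p hp
      rw [hP, mem_filter] at hp
      have hp1 : (1 : ℝ) ≤ p := by exact_mod_cast hp.2.one_lt.le
      have hp0 : (0 : ℝ) < p := by linarith
      have e1 : (p : ℝ) * (p : ℝ) ^ (-1 - E.δ / 2) = (p : ℝ) ^ (-E.δ / 2) := by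
        nth_rewrite 1 [← Real.rpow_one (p : ℝ)]
        rw [← Real.rpow_add hp0]
        congr 1; ring
      have e2 : (p : ℝ) ^ (-1 - E.δ / 2) ≤ (p : ℝ) ^ (-1 + E.τ / 4) :=
        Real.rpow_le_rpow_of_exponent_le hp1 (by have := E.hδ; have := E.hτ; linarith)
      have e3 : a p = (p : ℝ) ^ (-1 - E.δ / 2) +
          2 * (E.gu j p * ((p : ℝ) * (p : ℝ) ^ (-1 - E.δ / 2))) +
          2 * ((p * E.gh j p) * (p : ℝ) ^ (-1 - E.δ / 2)) := by
        simp only [ha, Env.g]; ring
      rw [e3, e1]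
      have e4 : (p * E.gh j p) * (p : ℝ) ^ (-1 - E.δ / 2) ≤
          (p * E.gh j p) * (p : ℝ) ^ (-1 + E.τ / 4) :=
        mul_le_mul_of_nonneg_left e2 (mul_nonneg hp0.le (hgh p))
      linarith
    refine (Finset.sum_le_sum h2).trans ?_
    rw [Finset.sum_add_distrib, Finset.sum_add_distrib, ← Finset.mul_sum, ← Finset.mul_sum]
    have h3 := hsu P
    have h4 := hsh P
    have h5 : 4 / (j : ℝ) = 4 * (1 / j) := by ring
    linarith
  -- the terms
  have hterm : ∀ t ∈ (Icc 2 M).filter (fun t => Rough R t),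
      E2c E j t / t * (t : ℝ) ^ (-E.δ / 2) = cmv a t := by
    intro t ht
    rw [mem_filter, mem_Icc] at ht
    obtain ⟨⟨ht2, htM⟩, hro⟩ := ht
    have ht0 : (0 : ℝ) < t := by
      have : 0 < t := by omega
      exact_mod_cast this
    have e2 : E2c E j t / t * (t : ℝ) ^ (-E.δ / 2) = E2c E j t * (t : ℝ) ^ (-1 - E.δ / 2) := by
      have e3 : (t : ℝ) ^ (-1 - E.δ / 2) = (t : ℝ)⁻¹ * (t : ℝ) ^ (-E.δ / 2) := by
        rw [← Real.rpow_neg_one, ← Real.rpow_add ht0]
        congr 1; ring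
      rw [e3]; ring
    rw [e2, ha, cmv_mul_fun, cmv_rpow _ (by omega : t ≠ 0)]
    rfl
  rw [Finset.sum_congr rfl hterm]
  have hmin1 : min 1 η ≤ 1 := min_le_left _ _
  have hmin2 : min 1 η ≤ η := min_le_right _ _
  have hs0 : 0 ≤ ∑ p ∈ P, a p := Finset.sum_nonneg fun p _ => ha0 p
  have hap : ∀ p ∈ P, a p ≤ 1 / 2 := by
    intro p hp
    have h1 : a p ≤ ∑ p ∈ P, a p := Finset.single_le_sum (fun q _ => ha0 q) hp
    linarith
  have h1 := euler P a ha0 hap ((Icc 2 M).filter (fun t => Rough R t)) (fun t ht => by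
    rw [mem_filter, mem_Icc] at ht
    obtain ⟨⟨ht2, htM⟩, hro⟩ := ht
    refine ⟨ht2, fun p hp hpt => ?_⟩
    rw [hP, mem_filter, mem_Icc]
    refine ⟨⟨?_, (Nat.le_of_dvd (by omega) hpt).trans htM⟩, hp⟩
    have := hro p hp hpt
    exact_mod_cast this)
  have hs1 : 2 * ∑ p ∈ P, a p ≤ 1 := by linarith
  have h5 := Real.abs_exp_sub_one_le (x := 2 * ∑ p ∈ P, a p) (by
    rw [abs_of_nonneg (by linarith)]; exact hs1)
  rw [abs_of_nonneg (by linarith : (0 : ℝ) ≤ 2 * ∑ p ∈ P, a p)] at h5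
  have h6 := (le_abs_self _).trans h5
  linarith

end Pool.Agent.U876.CMO
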